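import Pool.Agent.Run7.h350.FK.Fin
import Pool.Agent.Run7.h288.FK.ANA
import Pool.Agent.Run7.h288.FK.DIL
import Pool.Agent.Run7.h288.FK.FUB
import Pool.Agent.Run7.h955.FK.MVQ
import Pool.Agent.Run7.h610.FK.COV
import Pool.Agent.Run7.h610.FK.SUM
import Pool.Agent.Run7.h646.FK.CONV
import Pool.Agent.Run7.h313.FK.INF

/-!
# MP_bbe01f_an: the radial-derivative characterisation of Fock spaces (Q1, affirmative answer)

For every `n ≥ 1`, every `0 < p ≤ ∞`, every `α > 0`, every positive integer `N` and every entire `f`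
on `ℂⁿ`: `f ∈ F^p_α` if and only if `R^N f / (1 + |z|²)^N ∈ L^p_α`, where `R f = Σ z_k ∂f/∂z_k`.

Proof. It suffices to treat one step: for an entire `h` and `s ≥ 0`, `h / (1 + |z|²)^s ∈ L^p_α` if and
only if `R h / (1 + |z|²)^(s+1) ∈ L^p_α`. The forward direction is Cauchy's estimate and the
sub-mean-value property of `|h|^p`. For the converse and `p < ∞`, cut `ℂⁿ` into the shells
`K ≤ |z|² < K + 1` and let `a_K` be the integral of `|h|^p` over the shell `K`. The dilation by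
`ρ = √((K-1)/K)` maps the shell `K` into the shell `K - 1`, and
`|h(z) - h(ρ z)| ≤ (1 - ρ)/ρ · sup_{ρ ≤ τ ≤ 1} |R h(τ z)|`, so by the sub-mean-value property
`a_K ≤ (1 + ε) (K/(K-1))^n a_{K-1} + C_ε K^(-p) b_K`, where `b_K` is the integral of `|R h|^p` over
`K - 6 ≤ |z|² ≤ K + 19`. The Gaussian weight drops by the factor `e^(-αp/2)` from one shell to the next,
so the weighted sum of the `a_K` is bounded by the weighted sum of the `b_K`. For `p = ∞` one integrates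
along rays.

Pieces: helper288 (ANA, DIL, FUB), helper955 (MV, MVQ), helper662 (STEP), helper610 (SUM, COV),
helper646 (CONV, CONVINF), helper313 (INF), helper350 (plan and assembly).
-/

set_option autoImplicit false

namespace Pool.Agent.Results.MP_bbe01f_an.RadialDerivativeCharacterisation

open MeasureTheory Set
open scoped ENNReal

/-- The radial derivative `R f (z) = Σ_k z_k ∂f/∂z_k (z)` of a function on `ℂⁿ`; `fderiv ℂ` is the complex
Fréchet derivative and `EuclideanSpace.single k 1` the `k`-th standard basis vector. -/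
noncomputable def R {n : ℕ} (f : EuclideanSpace ℂ (Fin n) → ℂ) (z : EuclideanSpace ℂ (Fin n)) : ℂ :=
  ∑ k, z k * fderiv ℂ f z (EuclideanSpace.single k 1)

/-- `g ∈ L^p_α`: the function `g(z) e^(-α|z|²/2)` is in `L^p` of Lebesgue measure on `ℂⁿ`
(`‖z‖` is the Euclidean norm, `‖z‖² = Σ |z_k|²`). -/
def MemLpAlpha {n : ℕ} (p : ℝ≥0∞) (α : ℝ) (g : EuclideanSpace ℂ (Fin n) → ℂ) : Prop :=
  MemLp (fun z => g z * (Real.exp (-(α * ‖z‖ ^ 2 / 2)) : ℝ)) p volume

/-- `f ∈ F^p_α`: `f` is entire (complex analytic at every point of `ℂⁿ`) and `f ∈ L^p_α`. -/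
def MemFock {n : ℕ} (p : ℝ≥0∞) (α : ℝ) (f : EuclideanSpace ℂ (Fin n) → ℂ) : Prop :=
  AnalyticOnNhd ℂ f univ ∧ MemLpAlpha p α f

/-- **Radial-derivative characterisation of Fock spaces.** For all `n ≥ 1`, `0 < p ≤ ∞`, `α > 0`, `N ≥ 1`
and every entire `f` on `ℂⁿ`: `f ∈ F^p_α` if and only if `R^N f (z) / (1 + |z|²)^N ∈ L^p_α`. -/
theorem result (n : ℕ) (hn : 1 ≤ n) (p : ℝ≥0∞) (hp : 0 < p) (α : ℝ) (hα : 0 < α)
    (N : ℕ) (_hN : 1 ≤ N) (f : EuclideanSpace ℂ (Fin n) → ℂ) (hf : AnalyticOnNhd ℂ f univ) :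
    MemFock p α f ↔ MemLpAlpha p α (fun z => (R^[N] f) z / ((1 + ‖z‖ ^ 2) ^ N : ℝ)) := by
  have hANA := Pool.Agent.Run7.h288.FK.t_ANA
  have hMVQ := Run7.h955.FK.t_MVQ Run7.h955.FK.t_MV
  have hFUB := Pool.Agent.Run7.h288.FK.t_FUB
  have hDIL := Pool.Agent.Run7.h288.FK.t_DIL
  have key := Pool.Agent.Run7.h350.FK.final hANA hMVQ hFUB hDIL
    (Pool.Agent.Run7.h662.FK.t_STEP' hANA hMVQ hFUB hDIL) Pool.Agent.Run7.h610.FK.t_SUM
    Pool.Agent.Run7.h610.FK.t_COV (Pool.Agent.Run7.h350.FK.t_INF hANA)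
    (Run7.h646.FK.t_CONV hANA hMVQ) (Run7.h646.FK.t_CONVINF hANA) hn hp hα N hf
  have h0 : (fun z : EuclideanSpace ℂ (Fin n) => f z * (Real.exp (-(α * ‖z‖ ^ 2 / 2)) : ℝ)) =
      Pool.Agent.Run7.h350.FK.wt α 0 f := by
    funext z
    simp [Pool.Agent.Run7.h350.FK.wt]
  have hR : (R : (EuclideanSpace ℂ (Fin n) → ℂ) → EuclideanSpace ℂ (Fin n) → ℂ) =
      Pool.Agent.Run7.h350.FK.rad := rfl
  unfold MemFock MemLpAlpha
  rw [h0, hR]
  constructor
  · rintro ⟨_, h⟩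
    exact key.mp h
  · intro h
    exact ⟨hf, key.mpr h⟩

end Pool.Agent.Results.MP_bbe01f_an.RadialDerivativeCharacterisation
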